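import Pool.Agent.H93.TN.TargetsA

/-!
INT: interpolation of integral operators between `L²` and `L^∞`.
-/

set_option autoImplicit false

namespace Pool.Agent.H66.TN

open MeasureTheory Set FourierTransform
open Pool.Agent.H93.TN Pool.Agent.H83.LS Pool.Agent.H93.AR Pool.Agent.H54.LS Pool.Agent.H14.LS
open Pool.Agent.H83.AR Pool.Agent.H84.BR Pool.Agent.H84.B2
open scoped ENNReal NNReal

section lev

variable {X : Type} (G : X → ℂ)

/-- level sets -/
def lev (l : ℤ) : Set X := {x | (2 : ℝ) ^ (l - 1) < ‖G x‖ ∧ ‖G x‖ ≤ (2 : ℝ) ^ l}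

theorem exists_lev {x : X} (h : G x ≠ 0) : ∃ l : ℤ, x ∈ lev G l := by
  obtain ⟨n, hn1, hn2⟩ := exists_mem_Ioc_zpow (norm_pos_iff.2 h) (by norm_num : (1 : ℝ) < 2)
  exact ⟨n + 1, by rwa [add_sub_cancel_right], hn2⟩

theorem lev_unique {x : X} {l l' : ℤ} (h : x ∈ lev G l) (h' : x ∈ lev G l') : l = l' := by
  by_contra hne
  rcases lt_or_gt_of_ne hne with hlt | hlt
  · have h1 : (2 : ℝ) ^ l ≤ 2 ^ (l' - 1) := zpow_le_zpow_right₀ (by norm_num) (by omega)
    exact absurd (h.2.trans h1) (not_le.2 h'.1)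
  · have h1 : (2 : ℝ) ^ l' ≤ 2 ^ (l - 1) := zpow_le_zpow_right₀ (by norm_num) (by omega)
    exact absurd (h'.2.trans h1) (not_le.2 h.1)

theorem lev_ne {x : X} {l : ℤ} (h : x ∈ lev G l) : G x ≠ 0 := by
  intro h0
  have h1 := h.1
  rw [h0, norm_zero] at h1
  exact absurd h1 (not_lt.2 (by positivity))

/-- `2 ^ l` -/
noncomputable def aa (l : ℤ) : ℝ≥0∞ := ENNReal.ofReal ((2 : ℝ) ^ (l : ℝ))

theorem aa_ne_top (l : ℤ) : aa l ≠ ∞ := ENNReal.ofReal_ne_top

theorem aa_rpow (l : ℤ) (q : ℝ) : aa l ^ q = ENNReal.ofReal ((2 : ℝ) ^ ((l : ℝ) * q)) := by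
  unfold aa
  rw [ENNReal.ofReal_rpow_of_pos (by positivity), ← Real.rpow_mul (by norm_num)]

theorem lev_le {x : X} {l : ℤ} (h : x ∈ lev G l) : ‖G x‖ₑ ≤ aa l := by
  unfold aa
  rw [← ofReal_norm_eq_enorm, Real.rpow_intCast]
  exact ENNReal.ofReal_le_ofReal h.2

theorem aa_le {x : X} {l : ℤ} (h : x ∈ lev G l) : aa l ≤ 2 * ‖G x‖ₑ := by
  unfold aa
  rw [← ofReal_norm_eq_enorm, Real.rpow_intCast,
    show (2 : ℝ≥0∞) = ENNReal.ofReal 2 by simp, ← ENNReal.ofReal_mul (by norm_num)]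
  refine ENNReal.ofReal_le_ofReal ?_
  have h1 := h.1
  have h2 : (2 : ℝ) ^ l = 2 * 2 ^ (l - 1) := by
    rw [zpow_sub_one₀ (by norm_num)]; ring
  rw [h2]
  linarith

/-- sums over levels -/
theorem tsum_lev {β : Type} [AddCommMonoid β] [TopologicalSpace β] (f : X → β)
    (hf : ∀ x, G x = 0 → f x = 0) (x : X) : ∑' l : ℤ, (lev G l).indicator f x = f x := by
  by_cases h0 : G x = 0
  · rw [hf x h0]
    have : ∀ l : ℤ, (lev G l).indicator f x = 0 := by
      intro l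
      rw [indicator_of_notMem (fun h => lev_ne G h h0)]
    simp only [this, tsum_zero]
  · obtain ⟨l, hl⟩ := exists_lev G h0
    rw [tsum_eq_single l, indicator_of_mem hl]
    intro l' hl'
    rw [indicator_of_notMem (fun h => hl' (lev_unique G h hl))]

variable [MeasurableSpace X]

theorem lev_meas (hG : Measurable G) (l : ℤ) : MeasurableSet (lev G l) :=
  (measurableSet_lt measurable_const hG.norm).inter (measurableSet_le hG.norm measurable_const)

end lev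

section main

variable {X Y : Type} [MeasurableSpace X] [MeasurableSpace Y] {μ : Measure X} [SFinite μ]
  {ν : Measure Y} {K : Y → X → ℂ} {N₂ Ni : ℝ}

/-- the operator -/
noncomputable def TT (μ : Measure X) (K : Y → X → ℂ) (H : X → ℂ) (y : Y) : ℂ := ∫ x, K y x * H x ∂μ

theorem TT_meas (hK : Measurable (Function.uncurry K)) {H : X → ℂ} (hH : Measurable H) :
    Measurable (TT μ K H) := by
  have h1 : Measurable (Function.uncurry fun (y : Y) (x : X) => K y x * H x) :=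
    hK.mul (hH.comp measurable_snd)
  exact (h1.stronglyMeasurable.integral_prod_right).measurable

theorem TT_sup (hNi : 0 < Ni) (hK1 : ∀ y, ∫⁻ x, ‖K y x‖ₑ ∂μ ≤ ENNReal.ofReal Ni) {H : X → ℂ}
    {a : ℝ≥0∞} (ha : a ≠ ∞) (hH : ∀ x, ‖H x‖ₑ ≤ a) (y : Y) :
    ‖TT μ K H y‖ₑ ≤ a * ENNReal.ofReal Ni := by
  calc ‖TT μ K H y‖ₑ ≤ ∫⁻ x, ‖K y x * H x‖ₑ ∂μ := enorm_integral_le_lintegral_enorm _
    _ ≤ ∫⁻ x, a * ‖K y x‖ₑ ∂μ := by
        refine lintegral_mono fun x => ?_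
        rw [enorm_mul, mul_comm]
        gcongr
        exact hH x
    _ = a * ∫⁻ x, ‖K y x‖ₑ ∂μ := lintegral_const_mul' _ _ ha
    _ ≤ a * ENNReal.ofReal Ni := by gcongr; exact hK1 y

/-- the case of functions with support of finite measure -/
theorem fin_case {q : ℝ} (hq : 2 < q) {C : ℝ≥0}
    (hC : ∀ (Y : Type) [MeasurableSpace Y] (ν : Measure Y) (g : ℤ → Y → ℝ≥0∞) (m : ℤ → ℝ≥0∞)
      (B : ℝ≥0∞), (∀ l, Measurable (g l)) →
      (∀ l, ∫⁻ y, g l y ^ (2 : ℝ) ∂ν ≤ B * ENNReal.ofReal ((2 : ℝ) ^ ((l : ℝ) * 2)) * m l) →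
      (∀ l, ∫⁻ y, g l y ^ (q + 1) ∂ν ≤
        B * ENNReal.ofReal ((2 : ℝ) ^ ((l : ℝ) * (q + 1))) * m l) →
      ∫⁻ y, (∑' l, g l y) ^ q ∂ν ≤
        C * B * ∑' l : ℤ, ENNReal.ofReal ((2 : ℝ) ^ ((l : ℝ) * q)) * m l)
    (hNi : 0 < Ni) (hN₂ : 0 ≤ N₂) (hK : Measurable (Function.uncurry K))
    (hK1 : ∀ y, ∫⁻ x, ‖K y x‖ₑ ∂μ ≤ ENNReal.ofReal Ni)
    (hK2 : ∀ H : X → ℂ, Measurable H → (∃ B : ℝ, ∀ x, ‖H x‖ ≤ B) → μ {x | H x ≠ 0} < ∞ →
      ∫⁻ y, ‖∫ x, K y x * H x ∂μ‖ₑ ^ 2 ∂ν ≤ ENNReal.ofReal N₂ * ∫⁻ x, ‖H x‖ₑ ^ 2 ∂μ)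
    {G : X → ℂ} (hG : Measurable G) {A : ℝ} (hA : ∀ x, ‖G x‖ ≤ A) (hfin : μ {x | G x ≠ 0} < ∞) :
    ∫⁻ y, ‖TT μ K G y‖ₑ ^ q ∂ν ≤
      ((C * (2 : ℝ≥0) ^ q : ℝ≥0) : ℝ≥0∞) * ENNReal.ofReal (N₂ * Ni ^ (q - 2)) *
        ∫⁻ x, ‖G x‖ₑ ^ q ∂μ := by
  set b : ℝ≥0∞ := ENNReal.ofReal Ni with hb
  have hb0 : b ≠ 0 := by
    rw [hb]; exact (ENNReal.ofReal_pos.2 hNi).ne'
  have hbt : b ≠ ∞ := ENNReal.ofReal_ne_top
  have hq0 : 0 < q := by linarith
  set Gl : ℤ → X → ℂ := fun l => (lev G l).indicator G with hGl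
  have hGm : ∀ l, Measurable (Gl l) := fun l => hG.indicator (lev_meas G hG l)
  have hGa : ∀ l x, ‖Gl l x‖ₑ ≤ aa l := by
    intro l x
    by_cases hx : x ∈ lev G l
    · rw [hGl]; simp only [indicator_of_mem hx]; exact lev_le G hx
    · rw [hGl]; simp only [indicator_of_notMem hx, enorm_zero]; exact zero_le
  set m : ℤ → ℝ≥0∞ := fun l => μ (lev G l) with hm
  set g : ℤ → Y → ℝ≥0∞ := fun l y => ‖TT μ K (Gl l) y‖ₑ / b with hg
  have hgm : ∀ l, Measurable (g l) := fun l => (TT_meas hK (hGm l)).enorm.div_const b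
  set B : ℝ≥0∞ := ENNReal.ofReal N₂ * (b⁻¹) ^ (2 : ℝ) with hB
  -- the `L²` bound
  have hL2 : ∀ l, ∫⁻ y, g l y ^ (2 : ℝ) ∂ν ≤ B * ENNReal.ofReal ((2 : ℝ) ^ ((l : ℝ) * 2)) * m l := by
    intro l
    have h1 := hK2 (Gl l) (hGm l) ⟨A, fun x => by
      by_cases hx : x ∈ lev G l
      · rw [hGl]; simp only [indicator_of_mem hx]; exact hA x
      · rw [hGl]; simp only [indicator_of_notMem hx, norm_zero]
        exact (norm_nonneg (G x)).trans (hA x)⟩ (lt_of_le_of_lt (measure_mono fun x hx => by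
          intro h0
          apply hx
          rw [hGl]
          by_cases hx' : x ∈ lev G l
          · simp only [indicator_of_mem hx']; exact h0
          · simp only [indicator_of_notMem hx']) hfin)
    have h2 : ∫⁻ x, ‖Gl l x‖ₑ ^ 2 ∂μ ≤ aa l ^ (2 : ℝ) * m l := by
      have : ∀ x, ‖Gl l x‖ₑ ^ 2 ≤ (lev G l).indicator (fun _ => aa l ^ (2 : ℝ)) x := by
        intro x
        by_cases hx : x ∈ lev G l
        · rw [indicator_of_mem hx, ENNReal.rpow_two]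
          gcongr
          exact hGa l x
        · rw [indicator_of_notMem hx, hGl]
          simp [indicator_of_notMem hx]
      refine (lintegral_mono this).trans (le_of_eq ?_)
      rw [lintegral_indicator (lev_meas G hG l), lintegral_const, Measure.restrict_apply_univ]
    have h3 : ∀ y, g l y ^ (2 : ℝ) = (b⁻¹) ^ (2 : ℝ) * ‖∫ x, K y x * Gl l x ∂μ‖ₑ ^ 2 := by
      intro y
      show (‖TT μ K (Gl l) y‖ₑ / b) ^ (2 : ℝ) = _
      rw [div_eq_mul_inv, ENNReal.mul_rpow_of_nonneg _ _ (by norm_num), mul_comm, ENNReal.rpow_two,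
        ENNReal.rpow_two]
      rfl
    have hbi : (b⁻¹) ^ (2 : ℝ) ≠ ∞ :=
      ENNReal.rpow_ne_top_of_nonneg (by norm_num) (ENNReal.inv_ne_top.2 hb0)
    simp only [h3]
    rw [lintegral_const_mul' _ _ hbi]
    calc (b⁻¹) ^ (2 : ℝ) * ∫⁻ y, ‖∫ x, K y x * Gl l x ∂μ‖ₑ ^ 2 ∂ν
        ≤ (b⁻¹) ^ (2 : ℝ) * (ENNReal.ofReal N₂ * (aa l ^ (2 : ℝ) * m l)) := by
          gcongr
          exact h1.trans (by gcongr)
      _ = B * ENNReal.ofReal ((2 : ℝ) ^ ((l : ℝ) * 2)) * m l := by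
          rw [← aa_rpow, hB]; ring
  have hgle : ∀ l y, g l y ≤ aa l := by
    intro l y
    show ‖TT μ K (Gl l) y‖ₑ / b ≤ aa l
    rw [ENNReal.div_le_iff hb0 hbt]
    exact TT_sup hNi hK1 (aa_ne_top l) (hGa l) y
  have hLq : ∀ l, ∫⁻ y, g l y ^ (q + 1) ∂ν ≤
      B * ENNReal.ofReal ((2 : ℝ) ^ ((l : ℝ) * (q + 1))) * m l := by
    intro l
    have h1 : ∀ y, g l y ^ (q + 1) ≤ aa l ^ (q - 1) * g l y ^ (2 : ℝ) := by
      intro y
      have e : q + 1 = (q - 1) + 2 := by ring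
      rw [e, ENNReal.rpow_add_of_nonneg _ _ (by linarith) (by norm_num)]
      exact mul_le_mul_left (ENNReal.rpow_le_rpow (hgle l y) (by linarith)) _
    have hat : aa l ^ (q - 1) ≠ ∞ := ENNReal.rpow_ne_top_of_nonneg (by linarith) (aa_ne_top l)
    refine (lintegral_mono h1).trans ?_
    rw [lintegral_const_mul' _ _ hat]
    refine (mul_le_mul_right (hL2 l) _).trans (le_of_eq ?_)
    rw [← aa_rpow, ← aa_rpow]
    have e : q + 1 = (q - 1) + 2 := by ring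
    rw [e, ENNReal.rpow_add_of_nonneg _ _ (by linarith) (by norm_num)]
    ring
  have hM := hC Y ν g m B hgm hL2 hLq
  -- the sum of the measures
  have hsum : ∑' l : ℤ, ENNReal.ofReal ((2 : ℝ) ^ ((l : ℝ) * q)) * m l ≤
      (2 : ℝ≥0∞) ^ q * ∫⁻ x, ‖G x‖ₑ ^ q ∂μ := by
    have h1 : ∫⁻ x, ‖G x‖ₑ ^ q ∂μ =
        ∑' l : ℤ, ∫⁻ x, (lev G l).indicator (fun x => ‖G x‖ₑ ^ q) x ∂μ := by
      rw [← lintegral_tsum fun l =>
        ((hG.enorm.pow_const q).indicator (lev_meas G hG l)).aemeasurable]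
      refine lintegral_congr fun x => ?_
      rw [tsum_lev G (fun x => ‖G x‖ₑ ^ q) (fun x hx => by
        simp [hx, hq0])]
    rw [h1, ← ENNReal.tsum_mul_left]
    refine ENNReal.tsum_le_tsum fun l => ?_
    rw [← aa_rpow, lintegral_indicator (lev_meas G hG l)]
    have h2t : (2 : ℝ≥0∞) ^ q ≠ ∞ := ENNReal.rpow_ne_top_of_nonneg hq0.le (by norm_num)
    rw [← lintegral_const_mul' _ _ h2t]
    have h2 : aa l ^ q * m l = ∫⁻ x in lev G l, aa l ^ q ∂μ := by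
      rw [lintegral_const, Measure.restrict_apply_univ]
    rw [h2]
    refine setLIntegral_mono' (lev_meas G hG l) fun x hx => ?_
    rw [← ENNReal.mul_rpow_of_nonneg _ _ hq0.le]
    gcongr
    exact aa_le G hx
  -- the decomposition
  have hdec : ∀ y, ‖TT μ K G y‖ₑ ≤ b * ∑' l, g l y := by
    intro y
    have hKy : Measurable (K y) := hK.comp measurable_prodMk_left
    have h1 : TT μ K G y = ∑' l : ℤ, TT μ K (Gl l) y := by
      unfold TT
      rw [← integral_tsum (f := fun (l : ℤ) (x : X) => K y x * Gl l x)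
        (fun l => (hKy.mul (hGm l)).aestronglyMeasurable)]
      · refine integral_congr_ae (ae_of_all _ fun x => ?_)
        show K y x * G x = ∑' l : ℤ, K y x * Gl l x
        have h2 : ∀ l : ℤ, K y x * Gl l x = (lev G l).indicator (fun x => K y x * G x) x := by
          intro l
          by_cases hx : x ∈ lev G l
          · rw [hGl]; simp only [indicator_of_mem hx]
          · rw [hGl]; simp only [indicator_of_notMem hx, mul_zero]
        simp only [h2]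
        rw [tsum_lev G (fun x => K y x * G x) (fun x hx => by simp [hx])]
      · rw [← lintegral_tsum (f := fun (l : ℤ) (x : X) => ‖K y x * Gl l x‖ₑ)
          (fun l => (hKy.mul (hGm l)).enorm.aemeasurable)]
        have h3 : ∀ x, ∑' l : ℤ, ‖K y x * Gl l x‖ₑ = ‖K y x * G x‖ₑ := by
          intro x
          have h2 : ∀ l : ℤ, ‖K y x * Gl l x‖ₑ =
              (lev G l).indicator (fun x => ‖K y x * G x‖ₑ) x := by
            intro l
            by_cases hx : x ∈ lev G l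
            · rw [hGl]; simp only [indicator_of_mem hx]
            · rw [hGl]; simp only [indicator_of_notMem hx, mul_zero, enorm_zero]
          simp only [h2]
          rw [tsum_lev G (fun x => ‖K y x * G x‖ₑ) (fun x hx => by simp [hx])]
        simp only [h3]
        have h4 : ∫⁻ x, ‖K y x * G x‖ₑ ∂μ ≤ ENNReal.ofReal A * ENNReal.ofReal Ni := by
          calc ∫⁻ x, ‖K y x * G x‖ₑ ∂μ ≤ ∫⁻ x, ENNReal.ofReal A * ‖K y x‖ₑ ∂μ := by
                refine lintegral_mono fun x => ?_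
                rw [enorm_mul, mul_comm]
                gcongr
                rw [← ofReal_norm_eq_enorm]
                exact ENNReal.ofReal_le_ofReal (hA x)
            _ = ENNReal.ofReal A * ∫⁻ x, ‖K y x‖ₑ ∂μ :=
                lintegral_const_mul' _ _ ENNReal.ofReal_ne_top
            _ ≤ ENNReal.ofReal A * ENNReal.ofReal Ni := by gcongr; exact hK1 y
        exact (lt_of_le_of_lt h4 (ENNReal.mul_lt_top ENNReal.ofReal_lt_top
          ENNReal.ofReal_lt_top)).ne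
    rw [h1, ← ENNReal.tsum_mul_left]
    refine (enorm_tsum_le_tsum_enorm).trans (le_of_eq ?_)
    refine tsum_congr fun l => ?_
    show ‖TT μ K (Gl l) y‖ₑ = b * (‖TT μ K (Gl l) y‖ₑ / b)
    rw [ENNReal.mul_div_cancel hb0 hbt]
  have hbq : b ^ q ≠ ∞ := ENNReal.rpow_ne_top_of_nonneg hq0.le hbt
  have hfinal : b ^ q * B = ENNReal.ofReal (N₂ * Ni ^ (q - 2)) := by
    rw [ENNReal.ofReal_mul hN₂, ← ENNReal.ofReal_rpow_of_pos hNi, hB, ← hb]
    have e1 : b ^ q = b ^ (q - 2) * b ^ (2 : ℝ) := by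
      rw [← ENNReal.rpow_add _ _ hb0 hbt]; congr 1; ring
    have e2 : b ^ (2 : ℝ) * (b⁻¹) ^ (2 : ℝ) = 1 := by
      rw [← ENNReal.mul_rpow_of_nonneg _ _ (by norm_num), ENNReal.mul_inv_cancel hb0 hbt,
        ENNReal.one_rpow]
    calc b ^ q * (ENNReal.ofReal N₂ * (b⁻¹) ^ (2 : ℝ)) =
        ENNReal.ofReal N₂ * b ^ (q - 2) * (b ^ (2 : ℝ) * (b⁻¹) ^ (2 : ℝ)) := by rw [e1]; ring
      _ = _ := by rw [e2, mul_one]
  calc ∫⁻ y, ‖TT μ K G y‖ₑ ^ q ∂ν ≤ ∫⁻ y, b ^ q * (∑' l, g l y) ^ q ∂ν := by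
        refine lintegral_mono fun y => ?_
        rw [← ENNReal.mul_rpow_of_nonneg _ _ hq0.le]
        gcongr
        exact hdec y
    _ = b ^ q * ∫⁻ y, (∑' l, g l y) ^ q ∂ν := lintegral_const_mul' _ _ hbq
    _ ≤ b ^ q * (C * B * ((2 : ℝ≥0∞) ^ q * ∫⁻ x, ‖G x‖ₑ ^ q ∂μ)) := by
        gcongr
        exact hM.trans (by gcongr)
    _ = ((C * (2 : ℝ≥0) ^ q : ℝ≥0) : ℝ≥0∞) * (b ^ q * B) * ∫⁻ x, ‖G x‖ₑ ^ q ∂μ := by
        have e : ((C * (2 : ℝ≥0) ^ q : ℝ≥0) : ℝ≥0∞) = C * (2 : ℝ≥0∞) ^ q := by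
          rw [ENNReal.coe_mul, ENNReal.coe_rpow_of_nonneg _ hq0.le]
          rfl
        rw [e]; ring
    _ = _ := by rw [hfinal]

/-- sets of finite measure exhausting the support of all integrable functions -/
theorem exists_sets (μ : Measure X) [SFinite μ] : ∃ S : ℕ → Set X, (∀ k, MeasurableSet (S k)) ∧
    Monotone S ∧ (∀ k, μ (S k) < ∞) ∧
    ∀ f : X → ℂ, Measurable f → ∫⁻ x, ‖f x‖ₑ ∂μ < ∞ → ∀ᵐ x ∂μ, x ∉ ⋃ k, S k → f x = 0 := by
  set T := μ.sigmaFiniteSet with hT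
  have hTm : MeasurableSet T := measurableSet_sigmaFiniteSet
  refine ⟨fun k => spanningSets (μ.restrict T) k ∩ T, fun k =>
    (measurableSet_spanningSets _ k).inter hTm, fun k l hkl =>
    inter_subset_inter_left _ (monotone_spanningSets _ hkl), fun k => ?_, fun f hf hfi => ?_⟩
  · rw [← Measure.restrict_apply (measurableSet_spanningSets _ k)]
    exact measure_spanningSets_lt_top _ k
  · have hU : ⋃ k, spanningSets (μ.restrict T) k ∩ T = T := by
      rw [← iUnion_inter, iUnion_spanningSets, univ_inter]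
    rw [hU]
    have key : ∀ n : ℕ, μ ({x | ENNReal.ofReal (1 / ((n : ℝ) + 1)) ≤ ‖f x‖ₑ} ∩ Tᶜ) = 0 := by
      intro n
      have hpos : ENNReal.ofReal (1 / ((n : ℝ) + 1)) ≠ 0 := (ENNReal.ofReal_pos.2 (by positivity)).ne'
      have h1 : μ {x | ENNReal.ofReal (1 / ((n : ℝ) + 1)) ≤ ‖f x‖ₑ} ≤
          (∫⁻ x, ‖f x‖ₑ ∂μ) / ENNReal.ofReal (1 / ((n : ℝ) + 1)) :=
        meas_ge_le_lintegral_div hf.enorm.aemeasurable hpos ENNReal.ofReal_ne_top
      have h2 : μ ({x | ENNReal.ofReal (1 / ((n : ℝ) + 1)) ≤ ‖f x‖ₑ} ∩ Tᶜ) < ∞ :=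
        lt_of_le_of_lt ((measure_mono inter_subset_left).trans h1)
          (ENNReal.div_lt_top hfi.ne hpos)
      rcases measure_eq_zero_or_top_of_subset_compl_sigmaFiniteSet
        (inter_subset_right : {x | ENNReal.ofReal (1 / ((n : ℝ) + 1)) ≤ ‖f x‖ₑ} ∩ Tᶜ ⊆ Tᶜ)
        with h | h
      · exact h
      · exact absurd h h2.ne
    have h3 : μ (⋃ n : ℕ, {x | ENNReal.ofReal (1 / ((n : ℝ) + 1)) ≤ ‖f x‖ₑ} ∩ Tᶜ) = 0 :=
      measure_iUnion_null key
    rw [ae_iff]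
    refine measure_mono_null (fun x hx => ?_) h3
    simp only [mem_setOf_eq, Classical.not_imp] at hx
    obtain ⟨n, hn⟩ := exists_nat_one_div_lt (norm_pos_iff.2 hx.2)
    refine mem_iUnion.2 ⟨n, ?_, hx.1⟩
    show ENNReal.ofReal (1 / ((n : ℝ) + 1)) ≤ ‖f x‖ₑ
    rw [← ofReal_norm_eq_enorm]
    exact ENNReal.ofReal_le_ofReal hn.le

end main

/-- INT: interpolation of integral operators between `L²` and `L^∞` -/
theorem pf_int (hMARC : T_MARC) : T_INT := by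
  intro q hq
  obtain ⟨C, hC⟩ := hMARC 2 q (q + 1) (by norm_num) hq (by linarith)
  refine ⟨C * (2 : ℝ≥0) ^ q, ?_⟩
  intro X Y _ _ μ _ ν K N₂ Ni A G hNi hN₂ hK hK1 hK2 hG hA
  have hq0 : 0 < q := by linarith
  obtain ⟨S, hSm, hSmono, hSfin, hSf⟩ := exists_sets μ
  set Gk : ℕ → X → ℂ := fun k => (S k).indicator G with hGk
  have hGm : ∀ k, Measurable (Gk k) := fun k => hG.indicator (hSm k)
  have hGA : ∀ k x, ‖Gk k x‖ ≤ ‖G x‖ := by
    intro k x
    rw [hGk]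
    exact norm_indicator_le_norm_self G x
  have hbd : ∀ k, ∫⁻ y, ‖TT μ K (Gk k) y‖ₑ ^ q ∂ν ≤
      ((C * (2 : ℝ≥0) ^ q : ℝ≥0) : ℝ≥0∞) * ENNReal.ofReal (N₂ * Ni ^ (q - 2)) *
        ∫⁻ x, ‖G x‖ₑ ^ q ∂μ := by
    intro k
    refine (fin_case hq hC hNi hN₂ hK hK1 hK2 (hGm k) (A := A) (fun x => (hGA k x).trans (hA x))
      (lt_of_le_of_lt (measure_mono fun x hx => ?_) (hSfin k))).trans ?_
    · by_contra h
      exact hx (indicator_of_notMem h _)
    · gcongr with x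
      rw [← ofReal_norm_eq_enorm, ← ofReal_norm_eq_enorm]
      exact ENNReal.ofReal_le_ofReal (hGA k x)
  have hlim : ∀ y, Filter.Tendsto (fun k => TT μ K (Gk k) y) Filter.atTop (nhds (TT μ K G y)) := by
    intro y
    have hKy : Measurable (K y) := hK.comp measurable_prodMk_left
    have hKfin : ∫⁻ x, ‖K y x‖ₑ ∂μ < ∞ := lt_of_le_of_lt (hK1 y) ENNReal.ofReal_lt_top
    have hKi : Integrable (K y) μ := ⟨hKy.aestronglyMeasurable, hKfin⟩
    unfold TT
    refine tendsto_integral_of_dominated_convergence (fun x => ‖K y x‖ * |A|)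
      (fun k => (hKy.mul (hGm k)).aestronglyMeasurable) (hKi.norm.mul_const _) (fun k => ?_) ?_
    · refine ae_of_all _ fun x => ?_
      rw [norm_mul]
      gcongr
      exact ((hGA k x).trans (hA x)).trans (le_abs_self A)
    · filter_upwards [hSf (K y) hKy hKfin] with x hx
      by_cases hxS : x ∈ ⋃ k, S k
      · obtain ⟨k, hk⟩ := mem_iUnion.1 hxS
        refine tendsto_const_nhds.congr' ?_
        filter_upwards [Filter.eventually_ge_atTop k] with l hl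
        rw [hGk]
        simp only [indicator_of_mem (hSmono hl hk)]
      · simp only [hx hxS, zero_mul]
        exact tendsto_const_nhds
  have h1 : ∀ y, ‖TT μ K G y‖ₑ ^ q =
      Filter.liminf (fun k => ‖TT μ K (Gk k) y‖ₑ ^ q) Filter.atTop := by
    intro y
    refine (Filter.Tendsto.liminf_eq ?_).symm
    exact (ENNReal.continuous_rpow_const.tendsto _).comp ((hlim y).enorm)
  show ∫⁻ y, ‖TT μ K G y‖ₑ ^ q ∂ν ≤ _
  simp only [h1]
  refine (lintegral_liminf_le fun k => (TT_meas hK (hGm k)).enorm.pow_const q).trans ?_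
  exact Filter.liminf_le_of_frequently_le' (Filter.Frequently.of_forall hbd)

end Pool.Agent.H66.TN
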