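import Pool.Agent.H93.TN.TargetsA

/-!
MDL: mass of the bands.
-/

set_option autoImplicit false

namespace Pool.Agent.H66.TN

open MeasureTheory Set FourierTransform
open Pool.Agent.H93.TN Pool.Agent.H83.LS Pool.Agent.H93.AR Pool.Agent.H54.LS Pool.Agent.H14.LS
open Pool.Agent.H83.AR Pool.Agent.H84.BR Pool.Agent.H84.B2
open scoped ENNReal NNReal

theorem e0_one {s : ℝ} (h : s ≤ 1) : eta0 s = 1 :=
  Real.smoothTransition.one_of_one_le (by linarith)

theorem e0_zero {s : ℝ} (h : 2 ≤ s) : eta0 s = 0 :=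
  Real.smoothTransition.zero_of_nonpos (by linarith)

theorem e0_nonneg (s : ℝ) : 0 ≤ eta0 s := Real.smoothTransition.nonneg _

theorem e0_le_one (s : ℝ) : eta0 s ≤ 1 := Real.smoothTransition.le_one _

theorem e0_cont : Continuous eta0 :=
  Real.smoothTransition.continuous.comp (continuous_const.sub continuous_id)

/-- the profile -/
noncomputable def pf (n : ℕ) (r : ℝ) (u y : EE n) : ℝ := eta0 ((‖u - y‖ / r) ^ 2)

theorem pf_cont (n : ℕ) (r : ℝ) (u : EE n) : Continuous (pf n r u) :=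
  e0_cont.comp (((continuous_const.sub continuous_id).norm.div_const r).pow 2)

theorem pf_abs (n : ℕ) (r : ℝ) (u y : EE n) : |pf n r u y| ≤ 1 := by
  unfold pf
  rw [abs_of_nonneg (e0_nonneg _)]
  exact e0_le_one _

theorem md_rot (hSI : T_SI) (n : ℕ) (hn : 1 ≤ n) (r : ℝ) (u u' : EE n) (hu : ‖u‖ = 1)
    (hu' : ‖u'‖ = 1) : md n r u = md n r u' := by
  set Q : EE n ≃ₗᵢ[ℝ] EE n := Submodule.reflection (Submodule.span ℝ {u - u'})ᗮ with hQ
  have hQu : Q u = u' := Submodule.reflection_sub (by rw [hu, hu'])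
  have h := (hSI n Q hn).2 (fun y => ((pf n r u' y : ℝ) : ℂ))
    (Complex.continuous_ofReal.comp (pf_cont n r u')).measurable ⟨1, fun x => by
      rw [Complex.norm_real, Real.norm_eq_abs]
      exact pf_abs _ _ _ _⟩
  have e1 : ∀ w : Sp n, pf n r u' (Q w) = pf n r u w := by
    intro w
    unfold pf
    rw [← hQu, ← map_sub, LinearIsometryEquiv.norm_map]
  simp only [e1] at h
  have h2 : ((∫ w : Sp n, pf n r u w ∂(sg n) : ℝ) : ℂ) = ((∫ w : Sp n, pf n r u' w ∂(sg n) : ℝ) : ℂ) := by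
    rw [← integral_complex_ofReal, ← integral_complex_ofReal]
    exact h
  exact Complex.ofReal_injective h2

theorem md_ge (n : ℕ) (r : ℝ) (hr : 0 < r) (u : EE n) :
    (sg n {w : Sp n | ‖u - w‖ ≤ r}).toReal ≤ md n r u := by
  have hm : MeasurableSet {w : Sp n | ‖u - (w : EE n)‖ ≤ r} :=
    (isClosed_le (continuous_const.sub continuous_subtype_val).norm continuous_const).measurableSet
  have h1 : (sg n {w : Sp n | ‖u - w‖ ≤ r}).toReal =
      ∫ w : Sp n, ({w : Sp n | ‖u - (w : EE n)‖ ≤ r}).indicator (fun _ => (1 : ℝ)) w ∂(sg n) := by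
    rw [integral_indicator hm, integral_const, smul_eq_mul, mul_one, measureReal_restrict_apply_univ]
    rfl
  rw [h1]
  unfold md
  refine integral_mono ((integrable_const (1 : ℝ)).indicator hm) ?_ ?_
  · refine Integrable.of_bound
      ((pf_cont n r u).comp continuous_subtype_val).aestronglyMeasurable 1 (ae_of_all _ fun w => ?_)
    show ‖pf n r u w‖ ≤ 1
    rw [Real.norm_eq_abs]
    exact pf_abs _ _ _ _
  · intro w
    show ({w : Sp n | ‖u - (w : EE n)‖ ≤ r}).indicator (fun _ => (1 : ℝ)) w ≤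
      eta0 ((‖u - (w : EE n)‖ / r) ^ 2)
    by_cases hw : ‖u - (w : EE n)‖ ≤ r
    · have h2 : w ∈ {w : Sp n | ‖u - (w : EE n)‖ ≤ r} := hw
      rw [indicator_of_mem h2]
      have h3 : ‖u - (w : EE n)‖ / r ≤ 1 := (div_le_one hr).2 hw
      have h4 : 0 ≤ ‖u - (w : EE n)‖ / r := by positivity
      rw [e0_one (by nlinarith)]
    · have h2 : w ∉ {w : Sp n | ‖u - (w : EE n)‖ ≤ r} := hw
      rw [indicator_of_notMem h2]
      exact e0_nonneg _

theorem md_le (n : ℕ) (r : ℝ) (hr : 0 < r) (u : EE n) :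
    md n r u ≤ (sg n {w : Sp n | ‖u - w‖ ≤ 6 * r}).toReal := by
  have hm : MeasurableSet {w : Sp n | ‖u - (w : EE n)‖ ≤ 6 * r} :=
    (isClosed_le (continuous_const.sub continuous_subtype_val).norm continuous_const).measurableSet
  have h1 : (sg n {w : Sp n | ‖u - w‖ ≤ 6 * r}).toReal =
      ∫ w : Sp n, ({w : Sp n | ‖u - (w : EE n)‖ ≤ 6 * r}).indicator (fun _ => (1 : ℝ)) w ∂(sg n) := by
    rw [integral_indicator hm, integral_const, smul_eq_mul, mul_one, measureReal_restrict_apply_univ]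
    rfl
  rw [h1]
  unfold md
  refine integral_mono ?_ ((integrable_const (1 : ℝ)).indicator hm) ?_
  · refine Integrable.of_bound
      ((pf_cont n r u).comp continuous_subtype_val).aestronglyMeasurable 1 (ae_of_all _ fun w => ?_)
    show ‖pf n r u w‖ ≤ 1
    rw [Real.norm_eq_abs]
    exact pf_abs _ _ _ _
  · intro w
    show eta0 ((‖u - (w : EE n)‖ / r) ^ 2) ≤
      ({w : Sp n | ‖u - (w : EE n)‖ ≤ 6 * r}).indicator (fun _ => (1 : ℝ)) w
    by_cases hw : ‖u - (w : EE n)‖ ≤ 6 * r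
    · have h2 : w ∈ {w : Sp n | ‖u - (w : EE n)‖ ≤ 6 * r} := hw
      rw [indicator_of_mem h2]
      exact e0_le_one _
    · have h2 : w ∉ {w : Sp n | ‖u - (w : EE n)‖ ≤ 6 * r} := hw
      rw [indicator_of_notMem h2]
      push Not at hw
      have h3 : 6 ≤ ‖u - (w : EE n)‖ / r := (le_div_iff₀ hr).2 hw.le
      rw [e0_zero (by nlinarith)]

/-- MDL: mass of the bands, bands near a point, and their reverse -/
theorem pf_mdl (hSBL : T_SBL) (hSI : T_SI) : T_MDL := by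
  intro n hn
  obtain ⟨C, hC, hb⟩ := hSBL n hn
  have h6 : (1 : ℝ) ≤ 6 ^ (n - 1) := one_le_pow₀ (by norm_num)
  refine ⟨C * 6 ^ (n - 1), by positivity, fun r hr hr8 => ⟨fun u u' hu hu' =>
    md_rot hSI n hn r u u' hu hu', fun u hu => ?_⟩⟩
  have hlow : ENNReal.ofReal ((C * 6 ^ (n - 1))⁻¹ * r ^ (n - 1)) ≤ sg n {w : Sp n | ‖u - w‖ ≤ r} := by
    have hρ : 1 ≤ 1 / (8 * r) := by
      rw [le_div_iff₀ (by positivity)]; linarith
    have h1 := (hb (1 / (8 * r)) u hρ hu).2.1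
    have e1 : 1 / (8 * (1 / (8 * r))) = r := by field_simp
    rw [e1] at h1
    refine le_trans (ENNReal.ofReal_le_ofReal ?_) h1
    have e2 : ((1 / (8 * r)) ^ (n - 1))⁻¹ = 8 ^ (n - 1) * r ^ (n - 1) := by
      rw [one_div, inv_pow, inv_inv, mul_pow]
    rw [e2, mul_inv]
    have h8 : (1 : ℝ) ≤ 8 ^ (n - 1) := one_le_pow₀ (by norm_num)
    have h9 : ((6 : ℝ) ^ (n - 1))⁻¹ ≤ 1 := inv_le_one_of_one_le₀ h6
    have hrn : 0 < r ^ (n - 1) := by positivity
    calc C⁻¹ * (6 ^ (n - 1))⁻¹ * r ^ (n - 1) ≤ C⁻¹ * 1 * r ^ (n - 1) := by gcongr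
      _ = C⁻¹ * (1 * r ^ (n - 1)) := by ring
      _ ≤ C⁻¹ * (8 ^ (n - 1) * r ^ (n - 1)) := by gcongr
  have hup : sg n {w : Sp n | ‖u - w‖ ≤ 6 * r} ≤ ENNReal.ofReal (C * 6 ^ (n - 1) * r ^ (n - 1)) := by
    have hρ : 1 ≤ 1 / (6 * r) := by
      rw [le_div_iff₀ (by positivity)]; linarith
    have h1 := (hb (1 / (6 * r)) u hρ hu).2.2
    have e1 : 1 / (1 / (6 * r)) = 6 * r := by field_simp
    rw [e1] at h1
    refine le_trans h1 (le_of_eq ?_)
    congr 1
    rw [one_div, inv_pow, inv_inv, mul_pow, mul_assoc]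
  refine ⟨?_, ?_, hlow, hup⟩
  · have h1 := (ENNReal.ofReal_le_iff_le_toReal (measure_ne_top _ _)).1 hlow
    exact h1.trans (md_ge n r hr u)
  · have h1 := ENNReal.toReal_le_of_le_ofReal (by positivity) hup
    exact (md_le n r hr u).trans h1

end Pool.Agent.H66.TN
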